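import Pool.Agent.Helper94.Tot.Goals

/-!
# Normal order of the iterated totient class: transfer to integers
-/

set_option autoImplicit false

open Finset Filter Topology
open Pool.Agent.Helper94.Tot
open Pool.Agent.Helper42.Tot (f f_eq f_prime cls cls_bounds)

namespace Pool.Agent.Helper41.Tot

theorem lg_nonneg (n : ℕ) : 0 ≤ lg n := by
  unfold lg
  rw [Real.logb]
  exact div_nonneg (Real.log_natCast_nonneg n) (Real.log_nonneg (by norm_num))

theorem lg_mul {a b : ℕ} (ha : a ≠ 0) (hb : b ≠ 0) : lg (a * b) = lg a + lg b := by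
  unfold lg
  rw [Nat.cast_mul, Real.logb_mul (by exact_mod_cast ha) (by exact_mod_cast hb)]

theorem lg_one : lg 1 = 0 := by simp [lg]

theorem lg_mono {a b : ℕ} (ha : a ≠ 0) (h : a ≤ b) : lg a ≤ lg b := by
  unfold lg
  exact Real.logb_le_logb_of_le (by norm_num) (by exact_mod_cast Nat.pos_of_ne_zero ha)
    (by exact_mod_cast h)

theorem lg_pos {n : ℕ} (h : 2 ≤ n) : 0 < lg n := by
  unfold lg
  exact Real.logb_pos (by norm_num) (by exact_mod_cast h)

theorem lg_list (L : List ℕ) (h : ∀ q ∈ L, q ≠ 0) : lg L.prod = (L.map lg).sum := by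
  induction L with
  | nil => simp [lg_one]
  | cons a L ih =>
    have h1 : ∀ q ∈ L, q ≠ 0 := fun q hq => h q (by simp [hq])
    rw [List.prod_cons, List.map_cons, List.sum_cons, lg_mul (h a (by simp))
      (List.prod_ne_zero (fun h0 => h1 0 h0 rfl)), ih h1]

theorem lg_eq {n : ℕ} (h : n ≠ 0) : lg n = (n.primeFactorsList.map lg).sum := by
  rw [← lg_list _ (fun q hq => (Nat.prime_of_mem_primeFactorsList hq).ne_zero),
    Nat.prod_primeFactorsList h]

/-- the weight of a prime -/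
noncomputable def W (α : ℝ) (q : ℕ) : ℝ := lg q * |yy q - α|

theorem W_nonneg (α : ℝ) (q : ℕ) : 0 ≤ W α q := mul_nonneg (lg_nonneg q) (abs_nonneg _)

theorem f_prime_yy {q : ℕ} (hq : q.Prime) : (f q : ℝ) = lg q * yy q := by
  unfold yy
  rw [if_pos hq]
  have := lg_pos hq.two_le
  field_simp

theorem list_bound (α : ℝ) (L : List ℕ) (h : ∀ q ∈ L, q.Prime) :
    |(((L.map Pool.Agent.Helper42.Tot.g).sum : ℕ) : ℝ) - α * (L.map lg).sum|
      ≤ (L.map (W α)).sum := by
  induction L with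
  | nil => simp
  | cons a L ih =>
    have h1 : ∀ q ∈ L, q.Prime := fun q hq => h q (by simp [hq])
    have ha : a.Prime := h a (by simp)
    have h2 := ih h1
    rw [List.map_cons, List.map_cons, List.map_cons, List.sum_cons, List.sum_cons, List.sum_cons,
      ← f_prime ha]
    push_cast at h2 ⊢
    rw [f_prime_yy ha]
    have h3 : |lg a * yy a - α * lg a| = W α a := by
      unfold W
      rw [← abs_of_nonneg (lg_nonneg a), ← abs_mul]
      rw [abs_of_nonneg (lg_nonneg a)]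
      congr 1
      ring
    set S : ℝ := (List.map Nat.cast (List.map Pool.Agent.Helper42.Tot.g L)).sum with hS
    set T : ℝ := (List.map lg L).sum with hT
    have h4 : lg a * yy a + S - α * (lg a + T) = (lg a * yy a - α * lg a) + (S - α * T) := by ring
    rw [h4]
    refine (abs_add_le _ _).trans ?_
    rw [h3]
    linarith

/-- the sum of the weights of the prime factors -/
noncomputable def LW (α : ℝ) (n : ℕ) : ℝ := (n.primeFactorsList.map (W α)).sum

theorem f_bound (α : ℝ) {n : ℕ} (h : n ≠ 0) : |(f n : ℝ) - α * lg n| ≤ LW α n := by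
  rw [f_eq, lg_eq h]
  exact list_bound α _ (fun q hq => Nat.prime_of_mem_primeFactorsList hq)

theorem LW_mul (α : ℝ) {a b : ℕ} (ha : a ≠ 0) (hb : b ≠ 0) :
    LW α (a * b) = LW α a + LW α b := by
  unfold LW
  rw [((Nat.perm_primeFactorsList_mul ha hb).map (W α)).sum_eq, List.map_append, List.sum_append]

theorem LW_factorial (α : ℝ) (N : ℕ) : ∑ n ∈ Icc 1 N, LW α n = LW α N.factorial := by
  induction N with
  | zero => simp [LW]
  | succ N ih =>
    rw [Finset.sum_Icc_succ_top (by omega), ih, Nat.factorial_succ,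
      LW_mul α (by omega) (Nat.factorial_ne_zero N)]
    ring

theorem LW_eq (α : ℝ) (n : ℕ) :
    LW α n = ∑ q ∈ n.primeFactors, (n.factorization q : ℝ) * W α q := by
  unfold LW
  rw [Finset.sum_list_map_count]
  apply Finset.sum_congr rfl
  intro q _
  rw [Nat.primeFactorsList_count_eq, nsmul_eq_mul]

theorem fact_bound {N q : ℕ} (hq : q.Prime) :
    ((N.factorial.factorization q : ℕ) : ℝ) ≤ N * (1 / (q : ℝ) + 2 / (q : ℝ) ^ 2) := by
  have := Fact.mk hq
  have h1 := sub_one_mul_padicValNat_factorial (p := q) N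
  rw [← Nat.factorization_def _ hq] at h1
  have h2 : (q - 1) * N.factorial.factorization q ≤ N := by omega
  have h3 : ((q : ℝ) - 1) * (N.factorial.factorization q : ℝ) ≤ N := by
    have : (((q - 1 : ℕ) : ℝ)) * (N.factorial.factorization q : ℝ) ≤ N := by exact_mod_cast h2
    rwa [Nat.cast_sub hq.one_le, Nat.cast_one] at this
  have hq2 : (2 : ℝ) ≤ q := by exact_mod_cast hq.two_le
  have h4 : (1 : ℝ) / ((q : ℝ) - 1) ≤ 1 / (q : ℝ) + 2 / (q : ℝ) ^ 2 := by
    rw [div_add_div _ _ (by positivity) (by positivity), div_le_div_iff₀ (by linarith)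
      (by positivity)]
    nlinarith
  have h5 : (N.factorial.factorization q : ℝ) ≤ N * (1 / ((q : ℝ) - 1)) := by
    rw [mul_one_div, le_div_iff₀ (by linarith)]
    linarith
  exact h5.trans (mul_le_mul_of_nonneg_left h4 (Nat.cast_nonneg N))

theorem lg_le (q : ℕ) (hq : 1 ≤ q) : lg q ≤ 4 * (q : ℝ) ^ (1 / 2 : ℝ) := by
  have hq1 : (1 : ℝ) ≤ q := by exact_mod_cast hq
  have h1 : Real.log ((q : ℝ) ^ (1 / 2 : ℝ)) ≤ (q : ℝ) ^ (1 / 2 : ℝ) - 1 :=
    Real.log_le_sub_one_of_pos (by positivity)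
  rw [Real.log_rpow (by positivity)] at h1
  have h2 : (1 / 2 : ℝ) < Real.log 2 := by
    have := Real.log_two_gt_d9
    linarith
  unfold lg
  rw [Real.logb, div_le_iff₀ (by linarith)]
  have h3 : (0 : ℝ) ≤ (q : ℝ) ^ (1 / 2 : ℝ) := by positivity
  nlinarith

theorem sum_lg : ∃ C : ℝ, 0 < C ∧ ∀ s : Finset ℕ, (∀ q ∈ s, 1 ≤ q) →
    ∑ q ∈ s, lg q / (q : ℝ) ^ 2 ≤ C := by
  have hs : Summable (fun n : ℕ => 1 / (n : ℝ) ^ (3 / 2 : ℝ)) :=
    Real.summable_one_div_nat_rpow.2 (by norm_num)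
  refine ⟨4 * (∑' n : ℕ, 1 / (n : ℝ) ^ (3 / 2 : ℝ)) + 1, ?_, ?_⟩
  · have : 0 ≤ ∑' n : ℕ, 1 / (n : ℝ) ^ (3 / 2 : ℝ) := tsum_nonneg (fun n => by positivity)
    linarith
  · intro s hs1
    have h1 : ∑ q ∈ s, lg q / (q : ℝ) ^ 2 ≤ ∑ q ∈ s, 4 * (1 / (q : ℝ) ^ (3 / 2 : ℝ)) := by
      apply Finset.sum_le_sum
      intro q hq
      have hq1 := hs1 q hq
      have hq0 : (0 : ℝ) < q := by exact_mod_cast hq1
      have h2 := lg_le q hq1
      rw [div_le_iff₀ (by positivity)]
      have h3 : 4 * (1 / (q : ℝ) ^ (3 / 2 : ℝ)) * (q : ℝ) ^ 2 = 4 * (q : ℝ) ^ (1 / 2 : ℝ) := by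
        have h4 : (q : ℝ) ^ 2 = (q : ℝ) ^ (3 / 2 : ℝ) * (q : ℝ) ^ (1 / 2 : ℝ) := by
          rw [← Real.rpow_add hq0, ← Real.rpow_natCast]
          norm_num
        rw [h4]
        have h5 : (q : ℝ) ^ (3 / 2 : ℝ) ≠ 0 := (Real.rpow_pos_of_pos hq0 _).ne'
        field_simp
      rw [h3]
      exact h2
    rw [← Finset.mul_sum] at h1
    have h2 := hs.sum_le_tsum s (fun n _ => by positivity)
    linarith

/-- the sum over the integers -/
theorem sum_bound (hy : ∀ p, 0 ≤ yy p ∧ yy p ≤ 1) (α : ℝ) (hα : 0 < α) :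
    ∃ C : ℝ, 0 < C ∧ ∀ N s : ℕ, N ≤ 2 ^ s →
      ∑ n ∈ Icc 1 N, |(f n : ℝ) - α * lg n| ≤ N * (AA (fun p => |yy p - α|) s + C) := by
  obtain ⟨C, hC, hsum⟩ := sum_lg
  refine ⟨2 * (1 + α) * C, by positivity, ?_⟩
  intro N s hNs
  have h1 : ∑ n ∈ Icc 1 N, |(f n : ℝ) - α * lg n| ≤ ∑ n ∈ Icc 1 N, LW α n := by
    apply Finset.sum_le_sum
    intro n hn
    exact f_bound α (by have := (Finset.mem_Icc.1 hn).1; omega)
  refine h1.trans ?_
  rw [LW_factorial, LW_eq]
  have hsub : N.factorial.primeFactors ⊆ PN s := by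
    intro q hq
    have hqp := Nat.prime_of_mem_primeFactors hq
    have hqd := Nat.dvd_of_mem_primeFactors hq
    have hle := (hqp.dvd_factorial).1 hqd
    unfold PN
    rw [Finset.mem_filter, Finset.mem_Icc]
    exact ⟨⟨hqp.one_le, hle.trans hNs⟩, hqp⟩
  have h2 : ∑ q ∈ N.factorial.primeFactors, (N.factorial.factorization q : ℝ) * W α q
      ≤ ∑ q ∈ PN s, N * (1 / (q : ℝ) + 2 / (q : ℝ) ^ 2) * W α q := by
    refine (Finset.sum_le_sum (f := fun q => (N.factorial.factorization q : ℝ) * W α q)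
      (g := fun q => N * (1 / (q : ℝ) + 2 / (q : ℝ) ^ 2) * W α q) ?_).trans
      (Finset.sum_le_sum_of_subset_of_nonneg hsub ?_)
    · intro q hq
      exact mul_le_mul_of_nonneg_right (fact_bound (Nat.prime_of_mem_primeFactors hq))
        (W_nonneg α q)
    · intro q _ _
      exact mul_nonneg (by positivity) (W_nonneg α q)
  refine h2.trans ?_
  have h3 : ∑ q ∈ PN s, N * (1 / (q : ℝ) + 2 / (q : ℝ) ^ 2) * W α q
      = N * (AA (fun p => |yy p - α|) s + ∑ q ∈ PN s, 2 / (q : ℝ) ^ 2 * W α q) := by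
    unfold AA
    rw [← Finset.sum_add_distrib, Finset.mul_sum]
    apply Finset.sum_congr rfl
    intro q _
    unfold W
    ring
  rw [h3]
  apply mul_le_mul_of_nonneg_left _ (Nat.cast_nonneg N)
  have h4 : ∑ q ∈ PN s, 2 / (q : ℝ) ^ 2 * W α q ≤ ∑ q ∈ PN s, 2 * (1 + α) * (lg q / (q : ℝ) ^ 2) := by
    apply Finset.sum_le_sum
    intro q hq
    have h5 : |yy q - α| ≤ 1 + α := by
      have := hy q
      rw [abs_le]
      constructor <;> linarith
    have h6 : 0 ≤ lg q / (q : ℝ) ^ 2 := div_nonneg (lg_nonneg q) (by positivity)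
    unfold W
    have h7 : 2 / (q : ℝ) ^ 2 * (lg q * |yy q - α|) = 2 * (lg q / (q : ℝ) ^ 2) * |yy q - α| := by
      ring
    rw [h7]
    nlinarith
  rw [← Finset.mul_sum] at h4
  have h5 := hsum (PN s) (fun q hq => by
    unfold PN at hq
    rw [Finset.mem_filter, Finset.mem_Icc] at hq
    exact hq.1.1)
  have h6 : 2 * (1 + α) * ∑ q ∈ PN s, lg q / (q : ℝ) ^ 2 ≤ 2 * (1 + α) * C :=
    mul_le_mul_of_nonneg_left h5 (by positivity)
  linarith

/-- the class of the problem -/
theorem sInf_eq {n : ℕ} (h : 2 ≤ n) : sInf {k : ℕ | Nat.totient^[k] n = 1} = cls n := by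
  unfold cls
  congr 1
  ext k
  simp only [Set.mem_ofPred_eq]
  constructor
  · intro hk
    refine ⟨?_, hk⟩
    rcases Nat.eq_zero_or_pos k with h0 | h0
    · subst h0
      simp at hk
      omega
    · exact h0
  · exact fun hk => hk.2

theorem totient_iter_zero (k : ℕ) : Nat.totient^[k] 0 = 0 := by
  induction k with
  | zero => rfl
  | succ k ih => rw [Function.iterate_succ_apply', ih]; simp

/-- the set of bad integers -/
noncomputable def bad (α ε : ℝ) (N : ℕ) : Finset ℕ :=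
  (Finset.range N).filter (fun n : ℕ =>
    ε * ((α / Real.log 2) * Real.log (n : ℝ)) <
      |((sInf {k : ℕ | Nat.totient^[k] n = 1} : ℕ) : ℝ)
        - (α / Real.log 2) * Real.log (n : ℝ)|)

theorem conv (α : ℝ) (n : ℕ) : (α / Real.log 2) * Real.log (n : ℝ) = α * lg n := by
  unfold lg
  rw [Real.logb]
  ring

theorem bad_two {α ε : ℝ} {N n : ℕ} (h : n ∈ bad α ε N) : 2 ≤ n := by
  unfold bad at h
  rw [Finset.mem_filter] at h
  by_contra hcon
  have hn : n = 0 ∨ n = 1 := by omega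
  rcases hn with rfl | rfl
  · have h1 : {k : ℕ | Nat.totient^[k] 0 = 1} = ∅ := by
      ext k
      simp [totient_iter_zero]
    have h2 := h.2
    rw [h1] at h2
    simp at h2
  · have h1 : sInf {k : ℕ | Nat.totient^[k] 1 = 1} = 0 := by
      apply Nat.le_zero.1
      apply Nat.sInf_le
      simp
    have h2 := h.2
    rw [h1] at h2
    simp at h2

theorem bad_f {α ε : ℝ} {N n : ℕ} (h : n ∈ bad α ε N) :
    ε * (α * lg n) - 1 ≤ |(f n : ℝ) - α * lg n| := by
  have h2 := bad_two h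
  unfold bad at h
  rw [Finset.mem_filter] at h
  have h3 := h.2
  rw [conv, sInf_eq h2] at h3
  obtain ⟨h4, h5⟩ := cls_bounds h2
  have h4' : (f n : ℝ) ≤ cls n := by exact_mod_cast h4
  have h5' : (cls n : ℝ) ≤ f n + 1 := by exact_mod_cast h5
  have h6 : |(cls n : ℝ) - α * lg n| ≤ |(f n : ℝ) - α * lg n| + 1 := by
    have h7 : (cls n : ℝ) - α * lg n = ((f n : ℝ) - α * lg n) + ((cls n : ℝ) - f n) := by ring
    rw [h7]
    refine (abs_add_le _ _).trans ?_
    have h8 : |(cls n : ℝ) - f n| ≤ 1 := by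
      rw [abs_le]
      constructor <;> linarith
    linarith
  linarith

/-- the count of the bad integers -/
theorem bad_card (α ε : ℝ) (hα : 0 < α) (hε : 0 < ε) (N : ℕ) (hN : 1 ≤ N) (B : ℝ)
    (hB : ∑ n ∈ Icc 1 N, |(f n : ℝ) - α * lg n| ≤ N * B) (hl : 4 / (ε * α) ≤ lg N) :
    ((bad α ε N).card : ℝ) ≤ (Nat.sqrt N + 1) + N * B * (4 / (ε * α * lg N)) := by
  have hea : 0 < ε * α := mul_pos hε hα
  have hlN : 0 < lg N := lt_of_lt_of_le (by positivity) hl
  have hc : 4 ≤ ε * α * lg N := by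
    rw [div_le_iff₀ hea] at hl
    linarith
  set r := Nat.sqrt N with hr
  set A := (bad α ε N).filter (fun n => r < n) with hA
  have h1 : (bad α ε N).card ≤ (r + 1) + A.card := by
    have h2 : bad α ε N ⊆ Finset.range (r + 1) ∪ A := by
      intro n hn
      rw [Finset.mem_union, Finset.mem_range, hA, Finset.mem_filter]
      by_cases h : r < n
      · exact Or.inr ⟨hn, h⟩
      · exact Or.inl (by omega)
    refine (Finset.card_le_card h2).trans ((Finset.card_union_le _ _).trans ?_)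
    rw [Finset.card_range]
  have h3 : (A.card : ℝ) * (ε * α * lg N / 4) ≤ N * B := by
    have h4 : ∑ n ∈ A, (ε * α * lg N / 4) ≤ ∑ n ∈ A, |(f n : ℝ) - α * lg n| := by
      apply Finset.sum_le_sum
      intro n hn
      rw [hA, Finset.mem_filter] at hn
      have h5 := bad_f hn.1
      have h6 := bad_two hn.1
      have h7 : lg N ≤ 2 * lg n := by
        have h8 : N ≤ n * n := by
          have h9 : N < (r + 1) * (r + 1) := Nat.lt_succ_sqrt N
          have h10 : (r + 1) * (r + 1) ≤ n * n := Nat.mul_le_mul hn.2 hn.2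
          omega
        have h9 := lg_mono (by omega) h8
        rw [lg_mul (by omega) (by omega)] at h9
        linarith
      have h8 : ε * α * lg N ≤ ε * α * (2 * lg n) := mul_le_mul_of_nonneg_left h7 hea.le
      have h9 : ε * (α * lg n) = ε * α * lg n := by ring
      rw [h9] at h5
      linarith
    rw [Finset.sum_const, nsmul_eq_mul] at h4
    refine h4.trans (le_trans ?_ hB)
    apply Finset.sum_le_sum_of_subset_of_nonneg
    · intro n hn
      rw [hA, Finset.mem_filter] at hn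
      have h5 := bad_two hn.1
      have h6 := hn.1
      unfold bad at h6
      rw [Finset.mem_filter, Finset.mem_range] at h6
      rw [Finset.mem_Icc]
      omega
    · intro n _ _
      exact abs_nonneg _
  have h4 : (A.card : ℝ) ≤ N * B * (4 / (ε * α * lg N)) := by
    have h5 : (A.card : ℝ) = (A.card : ℝ) * (ε * α * lg N / 4) * (4 / (ε * α * lg N)) := by
      field_simp
    rw [h5]
    exact mul_le_mul_of_nonneg_right h3 (by positivity)
  have h5 : ((bad α ε N).card : ℝ) ≤ ((r : ℝ) + 1) + A.card := by exact_mod_cast h1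
  linarith

theorem tendsto_log2 : Tendsto (fun N : ℕ => Nat.log 2 N) atTop atTop := by
  rw [tendsto_atTop]
  intro k
  filter_upwards [eventually_ge_atTop (2 ^ k)] with N hN
  exact Nat.le_log_of_pow_le (by norm_num) hN

theorem log2_le_lg (N : ℕ) (hN : 1 ≤ N) : (Nat.log 2 N : ℝ) ≤ lg N := by
  unfold lg
  rw [Real.le_logb_iff_rpow_le (by norm_num) (by exact_mod_cast hN), Real.rpow_natCast]
  exact_mod_cast Nat.pow_log_le_self 2 (by omega)

theorem tendsto_sqrt : Tendsto (fun N : ℕ => Nat.sqrt N) atTop atTop := by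
  rw [tendsto_atTop]
  intro k
  filter_upwards [eventually_ge_atTop (k * k)] with N hN
  exact Nat.le_sqrt.2 hN

/-- PACKET TR. -/
theorem pf_TR (hY : StmtY) : StmtTR := by
  intro α hα hlim ε hε
  have hea : 0 < ε * α := mul_pos hε hα
  obtain ⟨C, hC, hsum⟩ := sum_bound hY.1 α hα
  set G : ℕ → ℝ := fun n => AA (fun p => |yy p - α|) n / n with hG
  have hlog := tendsto_log2
  have hs : Tendsto (fun N : ℕ => Nat.log 2 N + 1) atTop atTop :=
    tendsto_atTop_mono (fun N => Nat.le_succ _) hlog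
  have hG1 : Tendsto (fun N : ℕ => G (Nat.log 2 N + 1)) atTop (𝓝 0) := hlim.comp hs
  have hG2 : Tendsto (fun N : ℕ => C / ((Nat.log 2 N + 1 : ℕ) : ℝ)) atTop (𝓝 0) :=
    (tendsto_const_div_atTop_nhds_zero_nat C).comp hs
  have hG3 : Tendsto (fun N : ℕ => 2 / ((Nat.sqrt N : ℕ) : ℝ)) atTop (𝓝 0) :=
    (tendsto_const_div_atTop_nhds_zero_nat 2).comp tendsto_sqrt
  have hlim2 : Tendsto (fun N : ℕ => 2 / ((Nat.sqrt N : ℕ) : ℝ) +
      (8 / (ε * α)) * (G (Nat.log 2 N + 1) + C / ((Nat.log 2 N + 1 : ℕ) : ℝ))) atTop (𝓝 0) := by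
    have := hG3.add ((hG1.add hG2).const_mul (8 / (ε * α)))
    simpa using this
  refine squeeze_zero' (Eventually.of_forall (fun N => by positivity)) ?_ hlim2
  obtain ⟨K, hK⟩ := exists_nat_ge (4 / (ε * α))
  filter_upwards [hlog.eventually_ge_atTop K, hlog.eventually_ge_atTop 1,
    eventually_ge_atTop 1] with N hN1 hN2 hN3
  have hNpos : (0 : ℝ) < N := by exact_mod_cast hN3
  have hlogN := log2_le_lg N hN3
  have hl : 4 / (ε * α) ≤ lg N := by
    have : (K : ℝ) ≤ (Nat.log 2 N : ℝ) := by exact_mod_cast hN1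
    linarith
  have hpow : N ≤ 2 ^ (Nat.log 2 N + 1) := (Nat.lt_pow_succ_log_self (by norm_num) N).le
  have hb := bad_card α ε hα hε N hN3 _ (hsum N _ hpow) hl
  have hcard : (((Finset.range N).filter (fun n : ℕ =>
              ε * ((α / Real.log 2) * Real.log (n : ℝ)) <
                |((sInf {k : ℕ | Nat.totient^[k] n = 1} : ℕ) : ℝ)
                  - (α / Real.log 2) * Real.log (n : ℝ)|)).card : ℝ) = ((bad α ε N).card : ℝ) := rfl
  rw [hcard]
  set s : ℕ := Nat.log 2 N + 1 with hsdef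
  set B : ℝ := AA (fun p => |yy p - α|) s + C with hBdef
  have hspos : (0 : ℝ) < s := by rw [hsdef]; positivity
  have hAA : 0 ≤ AA (fun p => |yy p - α|) s := by
    unfold AA
    apply Finset.sum_nonneg
    intro q _
    exact mul_nonneg (abs_nonneg _) (div_nonneg (lg_nonneg q) (Nat.cast_nonneg q))
  have hB0 : 0 ≤ B := by rw [hBdef]; linarith
  have hs2 : (s : ℝ) ≤ 2 * lg N := by
    have h1 : (s : ℝ) = (Nat.log 2 N : ℝ) + 1 := by rw [hsdef]; push_cast; ring
    have h2 : (1 : ℝ) ≤ (Nat.log 2 N : ℝ) := by exact_mod_cast hN2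
    linarith
  have hlpos : 0 < lg N := by linarith
  have h1 : B * (4 / (ε * α * lg N)) ≤ (8 / (ε * α)) * (G s + C / (s : ℝ)) := by
    have h2 : (8 / (ε * α)) * (G s + C / (s : ℝ)) = B * (8 / (ε * α * s)) := by
      rw [hG, hBdef]
      field_simp
    rw [h2]
    apply mul_le_mul_of_nonneg_left _ hB0
    rw [div_le_div_iff₀ (by positivity) (by positivity)]
    have h3 : ε * α * s ≤ ε * α * (2 * lg N) := mul_le_mul_of_nonneg_left hs2 hea.le
    linarith
  have hr1 : 1 ≤ Nat.sqrt N := Nat.le_sqrt.2 (by omega)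
  have hrpos : (0 : ℝ) < (Nat.sqrt N : ℝ) := by exact_mod_cast hr1
  have h2 : ((Nat.sqrt N : ℝ) + 1) / N ≤ 2 / (Nat.sqrt N : ℝ) := by
    rw [div_le_div_iff₀ hNpos hrpos]
    have h3 : ((Nat.sqrt N : ℝ)) * (Nat.sqrt N : ℝ) ≤ N := by exact_mod_cast Nat.sqrt_le N
    have h4 : (1 : ℝ) ≤ (Nat.sqrt N : ℝ) := by exact_mod_cast hr1
    nlinarith
  calc ((bad α ε N).card : ℝ) / N
      ≤ (((Nat.sqrt N : ℝ) + 1) + N * B * (4 / (ε * α * lg N))) / N :=
        div_le_div_of_nonneg_right hb hNpos.le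
    _ = ((Nat.sqrt N : ℝ) + 1) / N + B * (4 / (ε * α * lg N)) := by
        rw [add_div]
        congr 1
        field_simp
    _ ≤ 2 / (Nat.sqrt N : ℝ) + (8 / (ε * α)) * (G s + C / (s : ℝ)) := add_le_add h2 h1

end Pool.Agent.Helper41.Tot
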